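import Pool.Agent.N210.NK.Defs
import Pool.Agent.Y112.SR.Pt

/-!
# The supertrace of the even projector
-/

set_option autoImplicit false
set_option linter.unusedSectionVars false
set_option linter.unusedSimpArgs false
set_option backward.isDefEq.respectTransparency false
set_option backward.defeqAttrib.useBackward true

open CategoryTheory Limits MonoidalCategory
open Pool.Agent.Y112.SR
open Pool.Agent.Y116.MT (tr)

namespace Pool.Agent.N210.NK

universe u v w c

open Functor.LaxMonoidal Functor.OplaxMonoidal

section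

variable {C : Type c} [Category.{v} C] [Preadditive C] [MonoidalCategory C]
  [SymmetricCategory C] [RightRigidCategory C] {E : Type w} [Field E] (R : SuperRealisation C E)

/-- The realisation of the trace is the supertrace. -/
lemma real_tr (h2 : (2 : E) ≠ 0) {X : C} (a : X ⟶ X) : ε R.H ≫ R.H.map (tr a) ≫ η R.H =
    (LinearMap.trace E (R.H.obj X) (R.H.map a ≫ R.par X).hom) • 𝟙 _ := by
  have h0 := R.finite X
  have h1 := Pool.Agent.Y116.MT.vec_trace (coe R X) (evb R X) (zigzag R X) (R.H.map a ≫ R.par X)
  have h3 : coe R X ≫ R.H.map a ▷ R.H.obj Xᘁ ≫ eva R X =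
      (LinearMap.trace E (R.H.obj X) (R.H.map a ≫ R.par X).hom) • 𝟙 _ := by
    rw [eva_eq R h2, ← h1, ← unit_hom]
    simp only [comp_whiskerRight, Category.assoc]
  have h4 : ε R.H ≫ R.H.map (tr a) ≫ η R.H = coe R X ≫ R.H.map a ▷ R.H.obj Xᘁ ≫ eva R X := by
    simp only [tr, coe, eva, Functor.map_comp, Functor.Monoidal.map_whiskerRight, Category.assoc,
      Functor.Monoidal.μ_δ_assoc]
  exact h4.trans h3

/-- If the trace of an endomorphism is zero, then so is the supertrace of its realisation. -/
lemma supertrace_eq_zero (h2 : (2 : E) ≠ 0) {X : C} (a : X ⟶ X) (ha : tr a = 0) :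
    LinearMap.trace E (R.H.obj X) (R.H.map a ≫ R.par X).hom = 0 := by
  have h := real_tr R h2 a
  rw [ha, Functor.map_zero, zero_comp, comp_zero] at h
  have h7 := LinearMap.congr_fun (congrArg ModuleCat.Hom.hom h) (1 : E)
  change (0 : E) = (LinearMap.trace E (R.H.obj X) (R.H.map a ≫ R.par X).hom) • (1 : E) at h7
  rw [smul_eq_mul, mul_one] at h7
  exact h7.symm

/-- The supertrace of an endomorphism which realises the even projector is the dimension of the
even part. -/
lemma supertrace_even (h2 : (2 : E) ≠ 0) {X : C} (a : X ⟶ X)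
    (ha : R.H.map a = evenProj R X) :
    LinearMap.trace E (R.H.obj X) (R.H.map a ≫ R.par X).hom =
      (Module.finrank E (LinearMap.ker ((R.par X).hom - LinearMap.id)) : E) := by
  have h0 := R.finite X
  have h1 : R.H.map a ≫ R.par X = evenProj R X := by
    rw [ha, evenProj, Linear.smul_comp, Preadditive.add_comp, Category.id_comp, R.par_sq, add_comm]
  rw [h1]
  set P : R.H.obj X →ₗ[E] R.H.obj X := (R.par X).hom with hP
  have hPP : P ∘ₗ P = LinearMap.id := congrArg ModuleCat.Hom.hom (R.par_sq X)
  have hPx : ∀ x, P (P x) = x := fun x => LinearMap.congr_fun hPP x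
  have h3 : (evenProj R X).hom = (2 : E)⁻¹ • (LinearMap.id + P) := rfl
  rw [h3]
  have h4 : LinearMap.IsProj (LinearMap.ker (P - LinearMap.id))
      ((2 : E)⁻¹ • (LinearMap.id + P)) := by
    constructor
    · intro x
      rw [LinearMap.mem_ker]
      simp only [LinearMap.sub_apply, LinearMap.smul_apply, LinearMap.add_apply, LinearMap.id_apply,
        map_smul, map_add, hPx]
      have h5 : P x - x + (x - P x) = 0 := by abel
      rw [h5, smul_zero]
    · intro x hx
      rw [LinearMap.mem_ker, LinearMap.sub_apply, LinearMap.id_apply, sub_eq_zero] at hx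
      rw [LinearMap.smul_apply, LinearMap.add_apply, LinearMap.id_apply, hx, ← two_smul E,
        smul_smul, inv_mul_cancel₀ h2, one_smul]
  exact h4.trace

/-- An object on which all traces vanish has no algebraic even projector, unless the dimension of
the even part of its realisation is zero in the field. -/
theorem not_algebraic (h2 : (2 : E) ≠ 0) {X : C} (hX : ∀ a : X ⟶ X, tr a = 0)
    (hd : (Module.finrank E (LinearMap.ker ((R.par X).hom - LinearMap.id)) : E) ≠ 0) :
    (¬ ∃ a : X ⟶ X, R.H.map a = evenProj R X) ∧ ¬ ∃ a : X ⟶ X, R.H.map a = oddProj R X := by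
  have h1 : ¬ ∃ a : X ⟶ X, R.H.map a = evenProj R X := by
    rintro ⟨a, ha⟩
    apply hd
    rw [← supertrace_even R h2 a ha]
    exact supertrace_eq_zero R h2 a (hX a)
  refine ⟨h1, ?_⟩
  rintro ⟨a, ha⟩
  apply h1
  refine ⟨𝟙 X - a, ?_⟩
  rw [Functor.map_sub, ha, CategoryTheory.Functor.map_id, evenProj, oddProj, sub_eq_iff_eq_add,
    ← smul_add, add_add_sub_cancel, ← two_smul E, smul_smul, inv_mul_cancel₀ h2, one_smul]

end

end Pool.Agent.N210.NK
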