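import Pool.Agent.Y112.SR.Defs
import Pool.Agent.Y116.MT.Trace

/-!
# Noncommutative motives of smooth plane curves

The categorical frame in which the noncommutative Künneth standard conjecture is posed, together
with the nonsingular plane curves over a field `k`.
-/

set_option autoImplicit false

open CategoryTheory MonoidalCategory Pool.Agent.Y112.SR

namespace Pool.Agent.N210.NK

universe u v w c

/-- `G` is a form of degree `d ≥ 1` in three variables over the field `k` which defines a smooth
plane curve: over an algebraic closure of `k` the only common zero of `G` and its three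
derivatives is zero. -/
def IsSmoothForm (k : Type u) [Field k] (d : ℕ) (G : MvPolynomial (Fin 3) k) : Prop :=
  1 ≤ d ∧ G.IsHomogeneous d ∧ ∀ x : Fin 3 → AlgebraicClosure k,
    MvPolynomial.aeval x G = 0 → (∀ i, MvPolynomial.aeval x (MvPolynomial.pderiv i G) = 0) → x = 0

/-- The degrees `[L : k]` of the finite field extensions `L` of `k` over which the plane curve
`G = 0` has a rational point. The degree of the residue field of a closed point of the curve is one
of them, and each of them is a multiple of such a degree. -/
def pointDegrees (k : Type u) [Field k] (G : MvPolynomial (Fin 3) k) : Set ℕ :=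
  {n | ∃ (L : Type u) (_ : Field L) (_ : Algebra k L), Module.Finite k L ∧
    Module.finrank k L = n ∧ ∃ x : Fin 3 → L, x ≠ 0 ∧ MvPolynomial.aeval x G = 0}

/-- The group of the Euler characteristics of perfect complexes on the smooth plane curve `X` with
equation `G = 0` of degree `d`. The Grothendieck group of `X` is generated by the structure sheaf,
with Euler characteristic `1 - (d - 1)(d - 2)/2`, and the residue fields of closed points, with
Euler characteristics the degrees of these. -/
def eulerGroup (k : Type u) [Field k] (d : ℕ) (G : MvPolynomial (Fin 3) k) : AddSubgroup ℤ :=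
  AddSubgroup.closure ({1 - (((d - 1).choose 2 : ℕ) : ℤ)} ∪ {m | ∃ n ∈ pointDegrees k G, m = n})

/-- The projector to the even part of the realisation. -/
noncomputable def evenProj {C : Type c} [Category.{v} C] [Preadditive C] [MonoidalCategory C]
    [SymmetricCategory C] {E : Type w} [Field E] (R : SuperRealisation C E) (A : C) :
    R.H.obj A ⟶ R.H.obj A :=
  (2 : E)⁻¹ • (𝟙 _ + R.par A)

/-- The projector to the odd part of the realisation. -/
noncomputable def oddProj {C : Type c} [Category.{v} C] [Preadditive C] [MonoidalCategory C]
    [SymmetricCategory C] {E : Type w} [Field E] (R : SuperRealisation C E) (A : C) :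
    R.H.obj A ⟶ R.H.obj A :=
  (2 : E)⁻¹ • (𝟙 _ - R.par A)

/-- The even Künneth projector of `A` is algebraic: it is the realisation of an endomorphism. -/
def EvenAlgebraic {C : Type c} [Category.{v} C] [Preadditive C] [MonoidalCategory C]
    [SymmetricCategory C] {E : Type w} [Field E] (R : SuperRealisation C E) (A : C) : Prop :=
  ∃ a : A ⟶ A, R.H.map a = evenProj R A

/-- The odd Künneth projector of `A` is algebraic: it is the realisation of an endomorphism. -/
def OddAlgebraic {C : Type c} [Category.{v} C] [Preadditive C] [MonoidalCategory C]
    [SymmetricCategory C] {E : Type w} [Field E] (R : SuperRealisation C E) (A : C) : Prop :=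
  ∃ a : A ⟶ A, R.H.map a = oddProj R A

/-- The dimension of the even part of the realisation of `A`. -/
noncomputable def evenDim {C : Type c} [Category.{v} C] [Preadditive C] [MonoidalCategory C]
    [SymmetricCategory C] {E : Type w} [Field E] (R : SuperRealisation C E) (A : C) : ℕ :=
  Module.finrank E (LinearMap.ker ((R.par A).hom - LinearMap.id))

/-- The categorical traces of all endomorphisms of `A` are `F`-linear combinations of the integers
in the subgroup `S` of the integers. -/
def TracesIn (F : Type*) [Field F] {C : Type c} [Category.{v} C] [Preadditive C] [Linear F C]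
    [MonoidalCategory C] [SymmetricCategory C] [RightRigidCategory C] (S : AddSubgroup ℤ) (A : C) :
    Prop :=
  ∀ f : A ⟶ A, Pool.Agent.Y116.MT.tr f ∈ Submodule.span F
    {s : 𝟙_ C ⟶ 𝟙_ C | ∃ n ∈ S, s = n • 𝟙 (𝟙_ C)}

/-- The data used of noncommutative Chow motives over `k` with coefficients in `F`: an `F`-linear
rigid symmetric monoidal category `C` (the category of noncommutative Chow motives over `k` with
coefficients in `F`), a symmetric monoidal functor `HP` from `C` to super vector spaces over `E`
(periodic cyclic homology, `E` the larger one of the fields `k` and `F`), and for each smooth plane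
curve over `k` an object of `C` (the motive of the dg category of perfect complexes on the curve),
such that the categorical trace of a correspondence from the curve to itself is an `F`-linear
combination of Euler characteristics of perfect complexes on the curve (the trace is the Euler
characteristic of the restriction of the correspondence to the diagonal), and such that the even
part of the periodic cyclic homology of the curve has dimension two. -/
structure PlaneCurveMotives (k : Type u) [Field k] (F : Type*) [Field F] (E : Type w) [Field E]
    [Algebra k E] [Algebra F E] (C : Type c) [Category.{v} C] [Preadditive C] [Linear F C]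
    [MonoidalCategory C] [SymmetricCategory C] [RightRigidCategory C] where
  /-- periodic cyclic homology -/
  HP : SuperRealisation C E
  map_smul {X Y : C} (a : F) (f : X ⟶ Y) : HP.H.map (a • f) = algebraMap F E a • HP.H.map f
  /-- the noncommutative motive of a smooth plane curve -/
  U (d : ℕ) (G : MvPolynomial (Fin 3) k) : IsSmoothForm k d G → C
  traces (d : ℕ) (G : MvPolynomial (Fin 3) k) (h : IsSmoothForm k d G) :
    TracesIn F (eulerGroup k d G) (U d G h)
  evenDim_eq (d : ℕ) (G : MvPolynomial (Fin 3) k) (h : IsSmoothForm k d G) :
    evenDim HP (U d G h) = 2

/-- The form `x^p + t y^p + t^2 z^p + t^2 (x^(p-1) y + y^(p-1) z + z^(p-1) x)`. -/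
noncomputable def theForm {k : Type u} [Field k] (p : ℕ) (t : k) : MvPolynomial (Fin 3) k :=
  MvPolynomial.X 0 ^ p + MvPolynomial.C t * MvPolynomial.X 1 ^ p +
    MvPolynomial.C (t ^ 2) * MvPolynomial.X 2 ^ p +
    MvPolynomial.C (t ^ 2) * (MvPolynomial.X 0 ^ (p - 1) * MvPolynomial.X 1 +
      MvPolynomial.X 1 ^ (p - 1) * MvPolynomial.X 2 +
      MvPolynomial.X 2 ^ (p - 1) * MvPolynomial.X 0)

end Pool.Agent.N210.NK
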