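import Pool.Agent.N210.NK.Smooth
import Pool.Agent.N210.NK.Trace

/-!
# The noncommutative Künneth conjecture fails for curves of index divisible by `p`
-/

set_option autoImplicit false

open CategoryTheory MonoidalCategory
open Pool.Agent.Y112.SR
open Pool.Agent.Y116.MT (tr)

namespace Pool.Agent.N210.NK

universe u v w c

lemma dvd_one_sub_choose {p : ℕ} [hp : Fact p.Prime] (h2 : p ≠ 2) {d : ℕ} (hd : 1 ≤ d)
    (h : p ∣ d) : (p : ℤ) ∣ 1 - (((d - 1).choose 2 : ℕ) : ℤ) := by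
  have hp3 : 3 ≤ p := by
    have := hp.out.two_le
    omega
  have hd3 : 3 ≤ d := hp3.trans (Nat.le_of_dvd hd h)
  obtain ⟨m, rfl⟩ : ∃ m, d = m + 2 := ⟨d - 2, by omega⟩
  have e1 : m + 2 - 1 = m + 1 := rfl
  rw [e1]
  have h3 : (((m + 1).choose 2 : ℕ) : ℤ) * 2 = (m + 1) * m := by
    have h4 : (m + 1).choose 2 * 2 = (m + 1) * m := by
      rw [Nat.choose_two_right]
      exact Nat.div_mul_cancel (by simpa using (Nat.even_mul_pred_self (m + 1)).two_dvd)
    exact_mod_cast h4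
  have h5 : (p : ℤ) ∣ (m : ℤ) + 2 := by exact_mod_cast h
  have h6 : (p : ℤ) ∣ (1 - (((m + 1).choose 2 : ℕ) : ℤ)) * 2 := by
    have h7 : (1 - (((m + 1).choose 2 : ℕ) : ℤ)) * 2 = ((m : ℤ) + 2) * (1 - m) := by
      rw [sub_mul, h3]
      ring
    rw [h7]
    exact Dvd.dvd.mul_right h5 _
  have h8 : IsCoprime (p : ℤ) 2 := by
    have h9 : Nat.Coprime p 2 := (Nat.coprime_primes hp.out Nat.prime_two).mpr h2
    exact_mod_cast Nat.isCoprime_iff_coprime.mpr h9
  exact h8.dvd_of_dvd_mul_right h6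

lemma dvd_of_mem_eulerGroup {p : ℕ} [hp : Fact p.Prime] (h2 : p ≠ 2) {k : Type u} [Field k]
    {d : ℕ} (hd : 1 ≤ d) (h : p ∣ d) {G : MvPolynomial (Fin 3) k}
    (hG : ∀ n ∈ pointDegrees k G, p ∣ n) {n : ℤ} (hn : n ∈ eulerGroup k d G) : (p : ℤ) ∣ n := by
  have h1 : eulerGroup k d G ≤ AddSubgroup.zmultiples (p : ℤ) := by
    rw [eulerGroup, AddSubgroup.closure_le]
    rintro m (hm | ⟨n, hn, rfl⟩)
    · rw [Set.mem_singleton_iff] at hm
      rw [hm]
      exact Int.mem_zmultiples_iff.mpr (dvd_one_sub_choose h2 hd h)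
    · exact Int.mem_zmultiples_iff.mpr (by exact_mod_cast hG n hn)
  exact Int.mem_zmultiples_iff.mp (h1 hn)

theorem main_general {p : ℕ} [hp : Fact p.Prime] (h2 : p ≠ 2) {k : Type u} [Field k] [CharP k p]
    {d : ℕ} (hd : p ∣ d) {G : MvPolynomial (Fin 3) k} (hG : IsSmoothForm k d G)
    (hdeg : ∀ n ∈ pointDegrees k G, p ∣ n)
    {F : Type*} [Field F] {E : Type w} [Field E] [Algebra k E] [Algebra F E] {C : Type c}
    [Category.{v} C] [Preadditive C] [Linear F C] [MonoidalCategory C] [SymmetricCategory C]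
    [RightRigidCategory C] (T : PlaneCurveMotives k F E C) :
    ¬ EvenAlgebraic T.HP (T.U d G hG) ∧ ¬ OddAlgebraic T.HP (T.U d G hG) := by
  have hE : CharP E p := charP_of_injective_algebraMap (algebraMap k E).injective p
  have hF : ((p : ℕ) : F) = 0 := by
    apply (algebraMap F E).injective
    rw [map_natCast, map_zero]
    exact CharP.cast_eq_zero E p
  have hE2 : (2 : E) ≠ 0 := by
    intro h
    have h1 : ((2 : ℕ) : E) = 0 := by exact_mod_cast h
    rw [CharP.cast_eq_zero_iff E p] at h1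
    exact h2 ((Nat.prime_dvd_prime_iff_eq hp.out Nat.prime_two).mp h1)
  have htr : ∀ a : T.U d G hG ⟶ T.U d G hG, tr a = 0 := by
    intro a
    have h3 := T.traces d G hG a
    have h4 : {s : 𝟙_ C ⟶ 𝟙_ C | ∃ n ∈ eulerGroup k d G, s = n • 𝟙 (𝟙_ C)} ⊆ {0} := by
      rintro s ⟨n, hn, rfl⟩
      obtain ⟨m, rfl⟩ := dvd_of_mem_eulerGroup h2 hG.1 hd hdeg hn
      rw [Set.mem_singleton_iff]
      have h5 : ((p : ℤ) * m) • 𝟙 (𝟙_ C) = ((((p : ℤ) * m : ℤ) : F)) • 𝟙 (𝟙_ C) :=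
        (Int.cast_smul_eq_zsmul F _ _).symm
      rw [h5, Int.cast_mul, Int.cast_natCast, hF, zero_mul, zero_smul]
    have h6 := Submodule.span_mono (R := F) h4 h3
    rw [Submodule.span_zero_singleton, Submodule.mem_bot] at h6
    exact h6
  have hdim : (Module.finrank E
      (LinearMap.ker ((T.HP.par (T.U d G hG)).hom - LinearMap.id)) : E) ≠ 0 := by
    have h7 := T.evenDim_eq d G hG
    rw [evenDim] at h7
    rw [h7]
    exact_mod_cast hE2
  exact not_algebraic T.HP hE2 htr hdim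

end Pool.Agent.N210.NK
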