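import Mathlib

/-!
# A place of ramification index prime to `p`
-/

set_option autoImplicit false

open Polynomial Module

namespace Pool.Agent.N210.NK

universe u

theorem isSeparable_of_not_dvd (p : ℕ) [hp : Fact p.Prime] (k L : Type*) [Field k] [CharP k p]
    [Field L] [Algebra k L] [Module.Finite k L] (h : ¬ p ∣ finrank k L) :
    Algebra.IsSeparable k L := by
  have h1 := Field.finSepDegree_mul_finInsepDegree k L
  have : ExpChar k p := ExpChar.prime hp.out
  obtain ⟨n, hn⟩ := finInsepDegree_eq_pow (F := k) (E := L) p
  rcases Nat.eq_zero_or_pos n with h0 | h0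
  · subst h0
    rw [pow_zero] at hn
    rw [hn, mul_one] at h1
    exact (Field.finSepDegree_eq_finrank_iff k L).mp h1
  · exfalso
    apply h
    rw [← h1, hn]
    exact Dvd.dvd.mul_left (dvd_pow_self p h0.ne') _

theorem exists_valuation (p : ℕ) [hp : Fact p.Prime] (K : Type*) [Field K] [CharP K p]
    (k : Type*) [Field k] [Algebra K[X] k] [IsFractionRing K[X] k]
    (L : Type*) [Field L] [Algebra k L] [Module.Finite k L] (h : ¬ p ∣ finrank k L) :
    ∃ (v : Valuation L (WithZero (Multiplicative ℤ))) (e : ℕ), ¬ p ∣ e ∧
      v (algebraMap k L (algebraMap K[X] k X)) = WithZero.exp (-(e : ℤ)) := by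
  have hpk : CharP k p := by
    have h1 : CharP K[X] p := inferInstance
    exact charP_of_injective_algebraMap (IsFractionRing.injective K[X] k) p
  have hsep := isSeparable_of_not_dvd p k L h
  let _ : Algebra K[X] L := ((algebraMap k L).comp (algebraMap K[X] k)).toAlgebra
  have : IsScalarTower K[X] k L := IsScalarTower.of_algebraMap_eq fun _ => rfl
  let B := integralClosure K[X] L
  have hB1 : IsFractionRing B L := integralClosure.isFractionRing_of_finite_extension k L
  have hB2 : Module.Finite K[X] B := IsIntegralClosure.finite K[X] k L B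
  have hB3 : IsDedekindDomain B := integralClosure.isDedekindDomain K[X] k L
  have hinj : Function.Injective (algebraMap K[X] L) :=
    (algebraMap k L).injective.comp (IsFractionRing.injective K[X] k)
  have hinjB : Function.Injective (algebraMap K[X] B) := by
    intro a b hab
    apply hinj
    exact congrArg (algebraMap B L) hab
  have hB5 : Module.IsTorsionFree K[X] B := Module.isTorsionFree_iff_algebraMap_injective.mpr hinjB
  have hB4 : Module.Flat K[X] B := inferInstance
  let P0 : Ideal K[X] := Ideal.span {X}
  have hP0 : P0.IsPrime := (Ideal.span_singleton_prime X_ne_zero).mpr prime_X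
  have hrank : finrank K[X] B = finrank k L := (IsFractionRing.finrank_eq K[X] k B L).symm
  have hP0' : P0.map (algebraMap K[X] B) ≠ ⊥ := by
    rw [Ideal.map_span, Set.image_singleton, Ne, Ideal.span_singleton_eq_bot]
    intro h0
    exact X_ne_zero (hinjB (h0.trans (map_zero _).symm))
  have hfin : (P0.primesOver B).Finite := Algebra.QuasiFinite.finite_primesOver P0
  let _ : Fintype (P0.primesOver B) := hfin.fintype
  have hsum := Ideal.sum_ramification_inertia_eq_finrank P0 B
  rw [hrank] at hsum
  have hex : ∃ q : P0.primesOver B, ¬ p ∣ q.1.ramificationIdx K[X] := by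
    by_contra hcon
    push Not at hcon
    apply h
    rw [← hsum]
    exact Finset.dvd_sum fun q _ => Dvd.dvd.mul_right (hcon q) _
  obtain ⟨q, hq⟩ := hex
  have hqp : q.1.IsPrime := q.2.1
  have hqo : q.1.LiesOver P0 := q.2.2
  have hq0 : q.1 ≠ ⊥ := ne_bot_of_le_ne_bot hP0' (Ideal.map_le_of_le_comap (q.1.over_def P0).le)
  let w : IsDedekindDomain.HeightOneSpectrum B := ⟨q.1, hqp, hq0⟩
  refine ⟨w.valuation L, q.1.ramificationIdx K[X], hq, ?_⟩
  have h1 : algebraMap k L (algebraMap K[X] k X) = algebraMap B L (algebraMap K[X] B X) := rfl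
  have h2 : algebraMap K[X] B X ≠ 0 := fun h0 => X_ne_zero (hinjB (h0.trans (map_zero _).symm))
  rw [h1, IsDedekindDomain.HeightOneSpectrum.valuation_of_algebraMap,
    IsDedekindDomain.HeightOneSpectrum.intValuation_eq_exp_neg_multiplicity _ h2,
    Ideal.IsDedekindDomain.ramificationIdx_eq_multiplicity P0 q.1 hP0', Ideal.map_span,
    Set.image_singleton]

end Pool.Agent.N210.NK
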