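import Mathlib

/-!
# The equation has no zero over a field with a suitable valuation
-/

set_option autoImplicit false

namespace Pool.Agent.N210.NK

/-- The ternary form of degree `p`, evaluated. -/
def val {L : Type*} [CommRing L] (p : ℕ) (t x y z : L) : L :=
  x ^ p + t * y ^ p + t ^ 2 * z ^ p +
    t ^ 2 * (x ^ (p - 1) * y + y ^ (p - 1) * z + z ^ (p - 1) * x)

section

lemma id4 {M : Type*} [CommMonoid M] (τ a b : M) (n : ℕ) :
    (τ ^ 2 * (a ^ n * b)) ^ (n + 1) = τ ^ (2 * n + 1) * (a ^ (n + 1)) ^ n * (τ * b ^ (n + 1)) := by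
  rw [mul_pow, mul_pow, ← pow_mul, ← pow_mul, ← pow_mul, mul_comm (n + 1) n,
    mul_mul_mul_comm, ← pow_succ]
  rfl

lemma id5 {M : Type*} [CommMonoid M] (τ a b : M) (n : ℕ) :
    (τ ^ 2 * (a ^ n * b)) ^ (n + 1) =
      τ ^ n * (τ * a ^ (n + 1)) ^ n * (τ ^ 2 * b ^ (n + 1)) := by
  rw [mul_pow, mul_pow, mul_pow, ← pow_mul, ← pow_mul, ← pow_mul, mul_comm (n + 1) n,
    ← mul_assoc (τ ^ n) (τ ^ n), mul_mul_mul_comm, ← pow_add, ← pow_add]
  have h : 2 * (n + 1) = n + n + 2 := by omega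
  rw [h]

lemma id6 {M : Type*} [CommMonoid M] (τ a b : M) (n : ℕ) :
    (τ ^ 2 * (a ^ n * b)) ^ (n + 1) =
      τ ^ 2 * (τ ^ 2 * a ^ (n + 1)) ^ n * b ^ (n + 1) := by
  rw [mul_pow, mul_pow, mul_pow, ← pow_mul, ← pow_mul, ← pow_mul, ← pow_mul, mul_comm (n + 1) n,
    ← mul_assoc (τ ^ 2) (τ ^ (2 * n)), mul_assoc (τ ^ 2 * τ ^ (2 * n)), ← pow_add]
  have h : 2 * (n + 1) = 2 + 2 * n := by omega
  rw [h]

variable {Γ : Type*} [LinearOrderedCommGroupWithZero Γ]

lemma small {p : ℕ} (hp : p ≠ 0) {τ g u w : Γ} (hτ : τ < 1) {m : ℕ} (hm : m ≠ 0) {X Y : Γ} (hg : 0 < g)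
    (hX : X ≤ g) (hY : Y ≤ g) (hu : u ^ p = τ ^ m * X ^ (p - 1) * Y) (hw : w = u) : w < g := by
  subst hw
  have h1 : w ^ p ≤ τ ^ m * g ^ p := by
    rw [hu, mul_assoc]
    apply mul_le_mul_right
    calc X ^ (p - 1) * Y ≤ g ^ (p - 1) * g := mul_le_mul' (pow_le_pow_left' hX _) hY
      _ = g ^ p := by rw [← pow_succ, Nat.sub_add_cancel (Nat.pos_of_ne_zero hp)]
  have h2 : τ ^ m * g ^ p < g ^ p := by
    have h3 : τ ^ m < 1 := pow_lt_one₀ zero_le hτ hm
    calc τ ^ m * g ^ p < 1 * g ^ p := by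
          apply mul_lt_mul_of_pos_right h3
          exact pow_pos hg p
      _ = g ^ p := one_mul _
  exact lt_of_pow_lt_pow_left₀ p zero_le (h1.trans_lt h2)

theorem val_ne_zero {L : Type*} [Field L] (v : Valuation L Γ) {p : ℕ} (hp : p.Prime) (t : L)
    (ht : v t < 1) (h1 : ∀ g : Γ, g ^ p ≠ v t) (h2 : ∀ g : Γ, g ^ p ≠ v t ^ 2)
    (x y z : L) (h : val p t x y z = 0) : x = 0 ∧ y = 0 ∧ z = 0 := by
  have hp0 := hp.ne_zero
  have ht0 : v t ≠ 0 := fun h0 => h1 0 (by rw [h0, zero_pow hp0])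
  set τ := v t with hτ
  set A := v x ^ p with hA
  set B := τ * v y ^ p with hB
  set D := τ ^ 2 * v z ^ p with hD
  have hAB : ∀ g : Γ, 0 < g → A = g → B = g → False := by
    intro g hg hAg hBg
    have hy0 : v y ≠ 0 := by
      intro h0
      rw [hB, h0, zero_pow hp0, mul_zero] at hBg
      exact hg.ne hBg
    apply h1 (v x / v y)
    rw [div_pow, div_eq_iff (pow_ne_zero _ hy0), ← hB, ← hA, hAg, hBg]
  have hAD : ∀ g : Γ, 0 < g → A = g → D = g → False := by
    intro g hg hAg hDg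
    have hz0 : v z ≠ 0 := by
      intro h0
      rw [hD, h0, zero_pow hp0, mul_zero] at hDg
      exact hg.ne hDg
    apply h2 (v x / v z)
    rw [div_pow, div_eq_iff (pow_ne_zero _ hz0), ← hD, ← hA, hAg, hDg]
  have hBD : ∀ g : Γ, 0 < g → B = g → D = g → False := by
    intro g hg hBg hDg
    have hz0 : v z ≠ 0 := by
      intro h0
      rw [hD, h0, zero_pow hp0, mul_zero] at hDg
      exact hg.ne hDg
    apply h1 (v y / v z)
    rw [div_pow, div_eq_iff (pow_ne_zero _ hz0)]
    have h3 : τ * v y ^ p = τ * (τ * v z ^ p) := by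
      rw [← hB, hBg, ← hDg, hD, sq, mul_assoc]
    exact mul_left_cancel₀ ht0 h3
  set g := max A (max B D) with hg
  have hAg : A ≤ g := le_max_left _ _
  have hBg : B ≤ g := (le_max_left _ _).trans (le_max_right _ _)
  have hDg : D ≤ g := (le_max_right _ _).trans (le_max_right _ _)
  rcases eq_or_ne g 0 with hg0 | hg0
  · rw [hg0] at hAg hBg hDg
    have hA0 : v x ^ p = 0 := le_antisymm hAg zero_le
    have hB0 : τ * v y ^ p = 0 := le_antisymm hBg zero_le
    have hD0 : τ ^ 2 * v z ^ p = 0 := le_antisymm hDg zero_le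
    rw [mul_eq_zero, or_iff_right ht0] at hB0
    rw [mul_eq_zero, or_iff_right (pow_ne_zero _ ht0)] at hD0
    exact ⟨(map_eq_zero v).mp (eq_zero_of_pow_eq_zero hA0),
      (map_eq_zero v).mp (eq_zero_of_pow_eq_zero hB0),
      (map_eq_zero v).mp (eq_zero_of_pow_eq_zero hD0)⟩
  · exfalso
    have hgpos : 0 < g := zero_lt_iff.mpr hg0
    obtain ⟨n, rfl⟩ : ∃ n, p = n + 1 := ⟨p - 1, (Nat.sub_add_cancel hp.one_lt.le).symm⟩
    have hn : n ≠ 0 := by
      have := hp.one_lt
      omega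
    have e1 : v (x ^ (n + 1)) = A := by rw [map_pow]
    have e2 : v (t * y ^ (n + 1)) = B := by rw [map_mul, map_pow]
    have e3 : v (t ^ 2 * z ^ (n + 1)) = D := by rw [map_mul, map_pow, map_pow]
    have e4 : v (t ^ 2 * (x ^ n * y)) < g := by
      refine small (p := n + 1) hp0 (τ := τ) (X := A) (Y := B) (m := 2 * n + 1)
        ht (by omega) hgpos hAg hBg ?_ rfl
      rw [map_mul, map_mul, map_pow, map_pow, hA, hB, Nat.add_sub_cancel, ← hτ]
      exact id4 _ _ _ _
    have e5 : v (t ^ 2 * (y ^ n * z)) < g := by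
      refine small (p := n + 1) hp0 (τ := τ) (X := B) (Y := D) (m := n)
        ht hn hgpos hBg hDg ?_ rfl
      rw [map_mul, map_mul, map_pow, map_pow, hD, hB, Nat.add_sub_cancel, ← hτ]
      exact id5 _ _ _ _
    have e6 : v (t ^ 2 * (z ^ n * x)) < g := by
      refine small (p := n + 1) hp0 (τ := τ) (X := D) (Y := A) (m := 2)
        ht two_ne_zero hgpos hDg hAg ?_ rfl
      rw [map_mul, map_mul, map_pow, map_pow, hA, hD, Nat.add_sub_cancel, ← hτ]
      exact id6 _ _ _ _
    have e7 : v (t ^ 2 * (x ^ n * y + y ^ n * z + z ^ n * x)) < g := by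
      rw [mul_add, mul_add]
      exact v.map_add_lt (v.map_add_lt e4 e5) e6
    rw [val, Nat.add_sub_cancel] at h
    have hcase : g = A ∨ g = B ∨ g = D := by
      rcases max_choice A (max B D) with h3 | h3
      · exact Or.inl (hg.trans h3)
      · rcases max_choice B D with h4 | h4
        · exact Or.inr (Or.inl (hg.trans (h3.trans h4)))
        · exact Or.inr (Or.inr (hg.trans (h3.trans h4)))
    rcases hcase with h3 | h3 | h3
    · have hB' : v (t * y ^ (n + 1)) < g := by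
        rw [e2]
        exact lt_of_le_of_ne hBg fun h4 => hAB g hgpos h3.symm h4
      have hD' : v (t ^ 2 * z ^ (n + 1)) < g := by
        rw [e3]
        exact lt_of_le_of_ne hDg fun h4 => hAD g hgpos h3.symm h4
      have h5 : v (x ^ (n + 1)) < g := by
        have h6 : x ^ (n + 1) = -(t * y ^ (n + 1) + t ^ 2 * z ^ (n + 1) +
            t ^ 2 * (x ^ n * y + y ^ n * z + z ^ n * x)) := by
          linear_combination h
        rw [h6, Valuation.map_neg]
        exact v.map_add_lt (v.map_add_lt hB' hD') e7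
      rw [e1, ← h3] at h5
      exact lt_irrefl _ h5
    · have hA' : v (x ^ (n + 1)) < g := by
        rw [e1]
        exact lt_of_le_of_ne hAg fun h4 => hAB g hgpos h4 h3.symm
      have hD' : v (t ^ 2 * z ^ (n + 1)) < g := by
        rw [e3]
        exact lt_of_le_of_ne hDg fun h4 => hBD g hgpos h3.symm h4
      have h5 : v (t * y ^ (n + 1)) < g := by
        have h6 : t * y ^ (n + 1) = -(x ^ (n + 1) + t ^ 2 * z ^ (n + 1) +
            t ^ 2 * (x ^ n * y + y ^ n * z + z ^ n * x)) := by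
          linear_combination h
        rw [h6, Valuation.map_neg]
        exact v.map_add_lt (v.map_add_lt hA' hD') e7
      rw [e2, ← h3] at h5
      exact lt_irrefl _ h5
    · have hA' : v (x ^ (n + 1)) < g := by
        rw [e1]
        exact lt_of_le_of_ne hAg fun h4 => hAD g hgpos h4 h3.symm
      have hB' : v (t * y ^ (n + 1)) < g := by
        rw [e2]
        exact lt_of_le_of_ne hBg fun h4 => hBD g hgpos h4 h3.symm
      have h5 : v (t ^ 2 * z ^ (n + 1)) < g := by
        have h6 : t ^ 2 * z ^ (n + 1) = -(x ^ (n + 1) + t * y ^ (n + 1) +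
            t ^ 2 * (x ^ n * y + y ^ n * z + z ^ n * x)) := by
          linear_combination h
        rw [h6, Valuation.map_neg]
        exact v.map_add_lt (v.map_add_lt hA' hB') e7
      rw [e3, ← h3] at h5
      exact lt_irrefl _ h5

end

theorem val_ne_zero_int {L : Type*} [Field L] (v : Valuation L (WithZero (Multiplicative ℤ)))
    {p : ℕ} (hp : p.Prime) (h2 : p ≠ 2) (t : L) {e : ℕ} (he : ¬ p ∣ e)
    (ht : v t = WithZero.exp (-(e : ℤ))) (x y z : L) (h : val p t x y z = 0) :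
    x = 0 ∧ y = 0 ∧ z = 0 := by
  have he0 : e ≠ 0 := fun h0 => he (h0 ▸ dvd_zero p)
  have key : ∀ (n : ℤ) (g : WithZero (Multiplicative ℤ)), g ^ p = WithZero.exp n → (p : ℤ) ∣ n := by
    intro n g hg
    have hg0 : g ≠ 0 := by
      intro h0
      rw [h0, zero_pow hp.ne_zero] at hg
      exact WithZero.exp_ne_zero hg.symm
    have h3 := congrArg WithZero.log hg
    rw [WithZero.log_pow, WithZero.log_exp, nsmul_eq_mul] at h3
    exact ⟨_, h3.symm⟩
  apply val_ne_zero v hp t _ _ _ x y z h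
  · rw [ht, ← WithZero.exp_zero, WithZero.exp_lt_exp]
    omega
  · intro g hg
    rw [ht] at hg
    have h3 := key _ g hg
    rw [dvd_neg] at h3
    exact he (by exact_mod_cast h3)
  · intro g hg
    rw [ht, ← WithZero.exp_nsmul] at hg
    have h3 := key _ g hg
    rw [nsmul_eq_mul, mul_neg, dvd_neg] at h3
    have h4 : p ∣ 2 * e := by exact_mod_cast h3
    rcases hp.dvd_mul.mp h4 with h5 | h5
    · exact h2 ((Nat.prime_dvd_prime_iff_eq hp Nat.prime_two).mp h5)
    · exact he h5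

end Pool.Agent.N210.NK
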