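import Pool.Agent.N210.NK.Defs
import Pool.Agent.N210.NK.Place
import Pool.Agent.N210.NK.Val

/-!
# The curve is smooth, and all its closed points have degree divisible by `p`
-/

set_option autoImplicit false

open Polynomial Module

namespace Pool.Agent.N210.NK

universe u

lemma aeval_theForm {k : Type*} [Field k] {L : Type*} [Field L] [Algebra k L] (p : ℕ) (t : k)
    (x : Fin 3 → L) :
    MvPolynomial.aeval x (theForm p t) = val p (algebraMap k L t) (x 0) (x 1) (x 2) := by
  simp [theForm, val]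

lemma theForm_homogeneous {k : Type*} [Field k] {p : ℕ} (hp : 1 ≤ p) (t : k) :
    (theForm p t).IsHomogeneous p := by
  have hX : ∀ (i : Fin 3) (n : ℕ), (MvPolynomial.X i ^ n : MvPolynomial (Fin 3) k).IsHomogeneous n :=
    fun i n => MvPolynomial.isHomogeneous_X_pow i n
  have hC : ∀ (c : k) {q : MvPolynomial (Fin 3) k} {n : ℕ}, q.IsHomogeneous n →
      (MvPolynomial.C c * q).IsHomogeneous n := by
    intro c q n hq
    have h := (MvPolynomial.isHomogeneous_C (Fin 3) c).mul hq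
    rwa [zero_add] at h
  have hXX : ∀ (i j : Fin 3), (MvPolynomial.X i ^ (p - 1) * MvPolynomial.X j :
      MvPolynomial (Fin 3) k).IsHomogeneous p := by
    intro i j
    have h := (hX i (p - 1)).mul (MvPolynomial.isHomogeneous_X k j)
    rwa [Nat.sub_add_cancel hp] at h
  exact (((hX 0 p).add (hC _ (hX 1 p))).add (hC _ (hX 2 p))).add
    (hC _ (((hXX 0 1).add (hXX 1 2)).add (hXX 2 0)))

/-- The algebra behind smoothness. -/
theorem smooth_aux {p : ℕ} (hp : 3 ≤ p) (K : Type*) [Field K] (Ω : Type*) [Field Ω] [Algebra K Ω]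
    (t : Ω) (ht : Transcendental K t) (x y z : Ω)
    (h0 : val p t x y z = 0) (hx : z ^ (p - 1) = x ^ (p - 2) * y)
    (hy : x ^ (p - 1) = y ^ (p - 2) * z) (hz : y ^ (p - 1) = z ^ (p - 2) * x) :
    x = 0 ∧ y = 0 ∧ z = 0 := by
  have hp1 : p - 1 ≠ 0 := by omega
  have hp2 : p - 2 ≠ 0 := by omega
  by_cases hz0 : z = 0
  · subst hz0
    rw [mul_zero] at hy
    rw [zero_pow hp2, zero_mul] at hz
    exact ⟨eq_zero_of_pow_eq_zero hy, eq_zero_of_pow_eq_zero hz, rfl⟩
  exfalso
  have hy0 : y ≠ 0 := by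
    intro h
    rw [h, mul_zero] at hx
    exact hz0 (eq_zero_of_pow_eq_zero hx)
  have hx0 : x ≠ 0 := by
    intro h
    rw [h, mul_zero] at hz
    exact hy0 (eq_zero_of_pow_eq_zero hz)
  obtain ⟨m, rfl⟩ : ∃ m, p = m + 2 := ⟨p - 2, by omega⟩
  have e1 : m + 2 - 1 = m + 1 := rfl
  have e2 : m + 2 - 2 = m := rfl
  rw [e1, e2] at hx hy hz
  -- scale
  set X := x / z with hX
  set Y := y / z with hY
  have hxX : x = X * z := by rw [hX, div_mul_cancel₀ _ hz0]
  have hyY : y = Y * z := by rw [hY, div_mul_cancel₀ _ hz0]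
  have hX0 : X ≠ 0 := div_ne_zero hx0 hz0
  have hY0 : Y ≠ 0 := div_ne_zero hy0 hz0
  have hzp : z ^ (m + 1) ≠ 0 := pow_ne_zero _ hz0
  have k1 : X ^ m * Y = 1 := by
    have h : z ^ (m + 1) * (X ^ m * Y) = z ^ (m + 1) * 1 := by
      calc z ^ (m + 1) * (X ^ m * Y) = (X * z) ^ m * (Y * z) := by ring
        _ = z ^ (m + 1) * 1 := by rw [← hxX, ← hyY, mul_one, hx]
    exact mul_left_cancel₀ hzp h
  have k2 : X ^ (m + 1) = Y ^ m := by
    have h : z ^ (m + 1) * X ^ (m + 1) = z ^ (m + 1) * Y ^ m := by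
      rw [← mul_pow, mul_comm z X, ← hxX, hy, hyY]
      ring
    exact mul_left_cancel₀ hzp h
  have k3 : Y ^ (m + 1) = X := by
    have h : z ^ (m + 1) * Y ^ (m + 1) = z ^ (m + 1) * X := by
      rw [← mul_pow, mul_comm z Y, ← hyY, hz, hxX]
      ring
    exact mul_left_cancel₀ hzp h
  have k4 : Y ^ ((m + 1) * m + 1) = 1 := by
    rw [pow_succ, pow_mul, k3, k1]
  have hYalg : IsAlgebraic K Y := by
    refine IsIntegral.isAlgebraic ?_
    refine IsIntegral.of_pow (n := (m + 1) * m + 1) (Nat.succ_pos _) ?_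
    rw [k4]
    exact isIntegral_one
  have hXalg : IsAlgebraic K X := by
    rw [← k3]
    exact hYalg.pow _
  -- the equation for t
  have k5 : X ^ (m + 2) + t * Y ^ (m + 2) + t ^ 2 * (1 + 3 * X) = 0 := by
    have h : z ^ (m + 2) * (X ^ (m + 2) + t * Y ^ (m + 2) + t ^ 2 * (1 + 3 * X)) = 0 := by
      rw [← h0, val, e1, hxX, hyY]
      have h1 : X ^ (m + 1) * Y = X := by
        rw [pow_succ, mul_right_comm, k1, one_mul]
      calc z ^ (m + 2) * (X ^ (m + 2) + t * Y ^ (m + 2) + t ^ 2 * (1 + 3 * X))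
          = z ^ (m + 2) * (X ^ (m + 2) + t * Y ^ (m + 2) + t ^ 2 * (1 + (X ^ (m + 1) * Y +
              Y ^ (m + 1) + X))) := by
            rw [h1, k3]
            ring
        _ = _ := by ring
    exact (mul_eq_zero.mp h).resolve_left (pow_ne_zero _ hz0)
  -- t is algebraic
  let M := algebraicClosure K Ω
  let X' : M := ⟨X, mem_algebraicClosure_iff.mpr hXalg⟩
  let Y' : M := ⟨Y, mem_algebraicClosure_iff.mpr hYalg⟩
  let q : M[X] := C (X' ^ (m + 2)) + C (Y' ^ (m + 2)) * Polynomial.X +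
    C (1 + 3 * X') * Polynomial.X ^ 2
  have hq0 : q ≠ 0 := by
    intro h
    have h1 := congrArg (fun r => Polynomial.eval 0 r) h
    have h2 : X' ^ (m + 2) = 0 := by simpa [q] using h1
    have h3 : X' = 0 := eq_zero_of_pow_eq_zero h2
    exact hX0 (congrArg (fun s : M => (s : Ω)) h3)
  have htM : IsAlgebraic M t := by
    refine ⟨q, hq0, ?_⟩
    simp only [q, map_add, map_mul, aeval_C, aeval_X, map_pow]
    have h1 : algebraMap M Ω X' = X := rfl
    have h2 : algebraMap M Ω Y' = Y := rfl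
    rw [map_one, h1, h2]
    have h3 : algebraMap M Ω 3 = 3 := map_ofNat _ 3
    rw [h3]
    linear_combination k5
  have hMK : Algebra.IsAlgebraic K M := algebraicClosure.isAlgebraic K Ω
  exact ht (htM.restrictScalars K)

theorem pderiv_theForm {k : Type*} [Field k] {p : ℕ} [CharP k p] (hp : 3 ≤ p) (t : k)
    {L : Type*} [Field L] [Algebra k L] (x : Fin 3 → L)
    (h : ∀ i, MvPolynomial.aeval x (MvPolynomial.pderiv i (theForm p t)) = 0) (ht : t ≠ 0) :
    x 2 ^ (p - 1) = x 0 ^ (p - 2) * x 1 ∧ x 0 ^ (p - 1) = x 1 ^ (p - 2) * x 2 ∧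
      x 1 ^ (p - 1) = x 2 ^ (p - 2) * x 0 := by
  have hc : ((p : ℕ) : L) = 0 := by
    have h1 : ((p : ℕ) : k) = 0 := CharP.cast_eq_zero k p
    rw [← map_natCast (algebraMap k L), h1, map_zero]
  have hc1 : ((p - 1 : ℕ) : L) = -1 := by
    rw [Nat.cast_sub (by omega), hc]
    simp
  have h0 := h 0
  have h1 := h 1
  have h2 := h 2
  simp [theForm, MvPolynomial.pderiv_X, hc1] at h0 h1 h2
  have e : p - 1 - 1 = p - 2 := by omega
  rw [e] at h0 h1 h2
  refine ⟨?_, ?_, ?_⟩
  · linear_combination h0.resolve_left ht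
  · linear_combination h1.resolve_left ht
  · linear_combination h2.resolve_left ht

theorem smooth_theForm_aux {p : ℕ} [hp : Fact p.Prime] (h2 : p ≠ 2) (K : Type*) [Field K]
    [CharP K p] (k : Type*) [Field k] [Algebra K[X] k] [IsFractionRing K[X] k]
    (Ω : Type*) [Field Ω] [Algebra k Ω] (x : Fin 3 → Ω)
    (hx0 : MvPolynomial.aeval x (theForm p (algebraMap K[X] k Polynomial.X)) = 0)
    (hx : ∀ i, MvPolynomial.aeval x
      (MvPolynomial.pderiv i (theForm p (algebraMap K[X] k Polynomial.X))) = 0) : x = 0 := by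
  have hp3 : 3 ≤ p := by
    have := hp.out.two_le
    omega
  have hinj := IsFractionRing.injective K[X] k
  have hpk : CharP k p := charP_of_injective_algebraMap hinj p
  have ht0 : algebraMap K[X] k Polynomial.X ≠ 0 := by
    intro h
    exact X_ne_zero (hinj (h.trans (map_zero _).symm))
  obtain ⟨h3, h4, h5⟩ := pderiv_theForm hp3 _ x hx ht0
  rw [aeval_theForm] at hx0
  let _ : Algebra K[X] Ω := ((algebraMap k Ω).comp (algebraMap K[X] k)).toAlgebra
  let _ : Algebra K Ω := ((algebraMap K[X] Ω).comp (algebraMap K K[X])).toAlgebra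
  have : IsScalarTower K K[X] Ω := IsScalarTower.of_algebraMap_eq fun _ => rfl
  have htr : Transcendental K (algebraMap k Ω (algebraMap K[X] k Polynomial.X)) := by
    have h6 : Function.Injective (algebraMap K[X] Ω) := (algebraMap k Ω).injective.comp hinj
    have h7 : Transcendental K (Polynomial.X : K[X]) := Polynomial.transcendental_X K
    exact (transcendental_algebraMap_iff h6).mpr h7
  obtain ⟨g0, g1, g2⟩ := smooth_aux hp3 K Ω _ htr (x 0) (x 1) (x 2) hx0 h3 h4 h5
  ext i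
  fin_cases i
  · exact g0
  · exact g1
  · exact g2

theorem smooth_theForm {p : ℕ} [hp : Fact p.Prime] (h2 : p ≠ 2) (K : Type*) [Field K] [CharP K p]
    (k : Type u) [Field k] [Algebra K[X] k] [IsFractionRing K[X] k] :
    IsSmoothForm k p (theForm p (algebraMap K[X] k Polynomial.X)) :=
  ⟨hp.out.one_lt.le, theForm_homogeneous hp.out.one_lt.le _,
    fun x hx0 hx => smooth_theForm_aux h2 K k (AlgebraicClosure k) x hx0 hx⟩

theorem dvd_pointDegrees {p : ℕ} [hp : Fact p.Prime] (h2 : p ≠ 2) (K : Type*) [Field K] [CharP K p]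
    (k : Type u) [Field k] [Algebra K[X] k] [IsFractionRing K[X] k] (n : ℕ)
    (hn : n ∈ pointDegrees k (theForm p (algebraMap K[X] k Polynomial.X))) : p ∣ n := by
  obtain ⟨L, hL1, hL2, hL3, rfl, x, hx0, hx⟩ := hn
  by_contra hcon
  obtain ⟨v, e, he, hv⟩ := exists_valuation p K k L hcon
  rw [aeval_theForm] at hx
  obtain ⟨g0, g1, g2⟩ := val_ne_zero_int v hp.out h2 _ he hv _ _ _ hx
  apply hx0
  ext i
  fin_cases i
  · exact g0
  · exact g1
  · exact g2

end Pool.Agent.N210.NK
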